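import Pool.Agent.Helper48.FB.St.Stubs

/-!
# FB-C3: the union of all stages of a tower
-/

set_option autoImplicit false

namespace Pool.Agent.Helper50.FB

open Finset Filter
open Pool.Agent.Helper53.WR
open Pool.Agent.Helper48.FB
open Pool.Agent.Helper48.FB.St (ftower_pieces)

lemma winLe_mono {A A' : Finset ℕ} {W : ℕ} (hA : A' ⊆ A) (h : WinLe A W) : WinLe A' W := by
  intro y z
  refine le_trans (Nat.mul_le_mul_right _ (card_le_card ?_)) (h y z)
  unfold win
  exact filter_subset_filter _ hA

lemma rep_le_repF {A : Set ℕ} {F : Finset ℕ} {n : ℕ} (h : ∀ x ∈ A, x ≤ n → x ∈ F) :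
    rep A n ≤ repF F n := by
  unfold rep repF
  rw [← Set.ncard_coe_finset]
  refine Set.ncard_le_ncard ?_ (Finset.finite_toSet _)
  rintro ⟨x, y⟩ ⟨h1, h2, h3⟩
  simp only at h1 h2 h3
  rw [mem_coe, mem_filter, mem_product]
  exact ⟨⟨h x h1 (by omega), h y h2 (by omega)⟩, h3⟩

lemma crossF_swap_card (X Y : Finset ℕ) (n : ℕ) : (crossF Y X n).card ≤ (crossF X Y n).card := by
  classical
  have : crossF Y X n ⊆ (crossF X Y n).image Prod.swap := by
    rintro ⟨x, y⟩ hxy
    unfold crossF at hxy
    rw [mem_filter, mem_product] at hxy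
    rw [mem_image]
    refine ⟨(y, x), ?_, rfl⟩
    unfold crossF
    rw [mem_filter, mem_product]
    exact ⟨⟨hxy.1.2, hxy.1.1⟩, by have := hxy.2; simp only at this ⊢; omega⟩
  exact (card_le_card this).trans card_image_le

/-- Representations by `O ∪ A ∪ R` if no number is a sum of two elements of `O ∪ R`. -/
lemma repF_union_le {O A R : Finset ℕ} {n : ℕ}
    (hno : ∀ x ∈ O ∪ R, ∀ y ∈ O ∪ R, x + y ≠ n) :
    repF (O ∪ A ∪ R) n ≤ repF A n + 2 * (crossF A O n).card + 2 * (crossF R A n).card := by
  classical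
  have hsub : ((O ∪ A ∪ R) ×ˢ (O ∪ A ∪ R)).filter (fun p => p.1 + p.2 = n) ⊆
      (A ×ˢ A).filter (fun p => p.1 + p.2 = n) ∪ (crossF A O n ∪ crossF O A n) ∪
        (crossF R A n ∪ crossF A R n) := by
    rintro ⟨x, y⟩ hp
    rw [mem_filter, mem_product] at hp
    obtain ⟨⟨hx, hy⟩, hxy⟩ := hp
    simp only at hx hy hxy
    have hx' : x ∈ A ∨ x ∈ O ∨ x ∈ R := by
      rw [mem_union, mem_union] at hx
      tauto
    have hy' : y ∈ A ∨ y ∈ O ∨ y ∈ R := by
      rw [mem_union, mem_union] at hy
      tauto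
    have hA : ∀ X Y : Finset ℕ, x ∈ X → y ∈ Y → (x, y) ∈ crossF X Y n := by
      intro X Y h1 h2
      unfold crossF
      rw [mem_filter, mem_product]
      exact ⟨⟨h1, h2⟩, hxy⟩
    rw [mem_union, mem_union, mem_union, mem_union]
    rcases hx' with hx' | hx'
    · rcases hy' with hy' | hy' | hy'
      · left; left
        rw [mem_filter, mem_product]
        exact ⟨⟨hx', hy'⟩, hxy⟩
      · left; right; left
        exact hA _ _ hx' hy'
      · right; right
        exact hA _ _ hx' hy'
    · rcases hy' with hy' | hy'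
      · rcases hx' with hx' | hx'
        · left; right; right
          exact hA _ _ hx' hy'
        · right; left
          exact hA _ _ hx' hy'
      · exact absurd hxy (hno x (mem_union.mpr hx') y (mem_union.mpr hy'))
  have h1 := card_le_card hsub
  have h2 := card_union_le ((A ×ˢ A).filter (fun p => p.1 + p.2 = n) ∪
    (crossF A O n ∪ crossF O A n)) (crossF R A n ∪ crossF A R n)
  have h3 := card_union_le ((A ×ˢ A).filter (fun p => p.1 + p.2 = n))
    (crossF A O n ∪ crossF O A n)
  have h4 := card_union_le (crossF A O n) (crossF O A n)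
  have h5 := card_union_le (crossF R A n) (crossF A R n)
  have h6 := crossF_swap_card A O n
  have h7 := crossF_swap_card R A n
  unfold repF
  omega

lemma zR_mono {a u e t κ f : ℕ → ℕ} (h : Tow a u e t κ f) : Monotone (fun k : ℕ => zR a u k) := by
  intro x y hxy
  have h1 := h.strictMono.monotone hxy
  have h2 := h.mono_u hxy
  simp only [zR]
  omega

/-- FB-C3 (the union of all stages; uses C2). -/
theorem ftower {a u e t κ w f : ℕ → ℕ} (h : FTow a u e t κ w) (T T' B : ℕ → Finset ℕ)
    (hT : ∀ k, Top (laT u k) (Fs u k) (f k) (w k) (T k) (T' k) (B k)) :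
    ∃ A' A : Set ℕ, A' ⊆ A ∧ (∀ n, ∃ x ∈ A, ∃ y ∈ A, x + y = n) ∧
      (∀ k n, n < 2 ^ zR a u k → rep A n ≤ 4 * Cs * a k) ∧
      (∀ n, n < 2 ^ (4 * a 0 + thT u e 0) → rep A' n = 0) ∧
      (∀ k n, 2 ^ (4 * a k + thT u e k) ≤ n → n < 2 ^ (4 * a (k + 1) + thT u e (k + 1)) →
        rep A' n ≤ 4096 ^ 2 * 2592 * f k + 2 * (4096 * (t k * Dk κ k))) ∧
      (∀ k j, 4 * a k + thT u e k + 128 * e k ≤ j → j + 1 ≤ zR a u (k + 1) →
        (∀ i, i ≤ 5 → j - 4 * a k - i ∉ B k) → CovBlock A' j ∧
          ∀ n, 2 ^ j ≤ n → n < 2 ^ (j + 1) →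
            rep A n ≤ 4096 ^ 2 * 2592 * f k + 2 * (4096 * (t k * Dk κ k)) + 2 * t k) ∧
      (∀ k J, J ≤ zR a u (k + 1) →
        WinLe (Pool.Agent.Helper48.WR.cut A J) ((k + 2) * (2 * 2 ^ (13 * u (k + 1))))) := by
  classical
  obtain ⟨q, S, S', Ak, Ak', Rk, hq, hS'0, hS1, hS'1, hinv, hFW, hFR⟩ := ftower_pieces h T T' B hT
  have hmonoS : ∀ s s', s ≤ s' → S s ⊆ S s' := by
    intro s s' hs
    induction s' with
    | zero =>
      have : s = 0 := by omega
      rw [this]
    | succ s' ih =>
      rcases Nat.lt_or_eq_of_le hs with h1 | h1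
      · rw [hS1]
        exact ((ih (by omega)).trans subset_union_left).trans subset_union_left
      · rw [h1]
  have hmonoS' : ∀ s s', s ≤ s' → S' s ⊆ S' s' := by
    intro s s' hs
    induction s' with
    | zero =>
      have : s = 0 := by omega
      rw [this]
    | succ s' ih =>
      rcases Nat.lt_or_eq_of_le hs with h1 | h1
      · rw [hS'1]
        exact (ih (by omega)).trans subset_union_left
      · rw [h1]
  have hS'S : ∀ s, S' s ⊆ S s := by
    intro s
    induction s with
    | zero => rw [hS'0]; exact empty_subset _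
    | succ s ih =>
      rw [hS'1, hS1]
      intro x hx
      rcases mem_union.mp hx with hx | hx
      · exact mem_union_left _ (mem_union_left _ (ih hx))
      · exact mem_union_left _ (mem_union_right _ ((hFW s).sub hx))
  -- elements of a late stage are large
  have hlarge : ∀ s s', s ≤ s' → ∀ x ∈ S s', x ∈ S s ∨ 2 ^ zR a u s ≤ x := by
    intro s s' hs
    induction s' with
    | zero =>
      have : s = 0 := by omega
      rw [this]
      exact fun x hx => Or.inl hx
    | succ s' ih =>
      rcases Nat.lt_or_eq_of_le hs with h1 | h1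
      · intro x hx
        rw [hS1, mem_union, mem_union] at hx
        have hz : 2 ^ zR a u s ≤ 2 ^ zR a u s' :=
          Nat.pow_le_pow_right (by norm_num) (zR_mono h.tow (show s ≤ s' by omega))
        rcases hx with (hx | hx) | hx
        · exact ih (by omega) x hx
        · right
          refine hz.trans (le_trans (Nat.pow_le_pow_right (by norm_num) ?_) ((hFW s').rng x hx).1)
          unfold zR thT
          omega
        · right
          exact hz.trans ((hFR s').rng x hx).1
      · rw [h1]
        exact fun x hx => Or.inl hx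
  let A : Set ℕ := {x | ∃ s, x ∈ S s}
  let A' : Set ℕ := {x | ∃ s, x ∈ S' s}
  have hAlow : ∀ s, ∀ x ∈ A, x < 2 ^ zR a u s → x ∈ S s := by
    rintro s x ⟨s', hs'⟩ hx
    rcases le_total s s' with h1 | h1
    · rcases hlarge s s' h1 x hs' with h2 | h2
      · exact h2
      · omega
    · exact hmonoS s' s h1 hs'
  -- the elements of `A'`
  have hA'low : ∀ s s', s ≤ s' → ∀ x ∈ S' s', x ∈ S' s ∨ 2 ^ (4 * a s + thT u e s) ≤ x := by
    intro s s' hs
    induction s' with
    | zero =>
      have : s = 0 := by omega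
      rw [this]
      exact fun x hx => Or.inl hx
    | succ s' ih =>
      rcases Nat.lt_or_eq_of_le hs with h1 | h1
      · intro x hx
        rw [hS'1, mem_union] at hx
        rcases hx with hx | hx
        · exact ih (by omega) x hx
        · right
          refine le_trans (Nat.pow_le_pow_right (by norm_num) ?_)
            ((hFW s').rng x ((hFW s').sub hx)).1
          exact texpo_mono h.tow (show s ≤ s' by omega)
      · rw [h1]
        exact fun x hx => Or.inl hx
  have hA'mem : ∀ s, ∀ x ∈ A', x < 2 ^ (4 * a s + thT u e s) → x ∈ S' s := by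
    rintro s x ⟨s', hs'⟩ hx
    rcases le_total s s' with h1 | h1
    · rcases hA'low s s' h1 x hs' with h2 | h2
      · exact h2
      · omega
    · exact hmonoS' s' s h1 hs'
  -- no sums of two old elements
  have hOO : ∀ s n, 2 ^ (4 * a s + thT u e s) ≤ n → ∀ x ∈ S s, ∀ y ∈ S s, x + y ≠ n := by
    intro s n hn x hx y hy hxy
    have h1 := (hinv s).bd x hx
    have h2 := (hinv s).bd y hy
    have h3 : 4 * a s + 8 * u s + 1 ≤ 4 * a s + thT u e s := by
      have := h.tow.e300 s
      unfold thT
      omega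
    have h4 : (2 : ℕ) ^ (4 * a s + 8 * u s + 1) ≤ 2 ^ (4 * a s + thT u e s) :=
      Nat.pow_le_pow_right (by norm_num) h3
    rw [pow_succ] at h4
    omega
  refine ⟨A', A, ?_, ?_, ?_, ?_, ?_, ?_, ?_⟩
  · rintro x ⟨s, hs⟩
    exact ⟨s, hS'S s hs⟩
  · intro n
    have h1 : n < 2 ^ (4 * a (n + 8) + 8 * u (n + 8) - 8) := by
      have h2 : n + 8 ≤ a (n + 8) := h.tow.strictMono.id_le (n + 8)
      have h3 : n < 2 ^ n := Nat.lt_two_pow_self
      refine lt_of_lt_of_le h3 (Nat.pow_le_pow_right (by norm_num) (by omega))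
    obtain ⟨x, hx, y, hy, hxy⟩ := (hinv (n + 8)).cov n h1
    exact ⟨x, ⟨n + 8, hx⟩, y, ⟨n + 8, hy⟩, hxy⟩
  · intro k n hn
    refine le_trans (rep_le_repF (F := S k) ?_) ((hinv k).rep n)
    intro x hx hxn
    exact hAlow k x hx (by omega)
  · intro n hn
    unfold rep
    have : ({p : ℕ × ℕ | p.1 ∈ A' ∧ p.2 ∈ A' ∧ p.1 + p.2 = n} : Set (ℕ × ℕ)) = ∅ := by
      rw [Set.eq_empty_iff_forall_notMem]
      rintro ⟨x, y⟩ ⟨h1, h2, h3⟩
      simp only at h1 h3
      have h4 := hA'mem 0 x h1 (by omega)
      rw [hS'0] at h4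
      exact absurd h4 (notMem_empty _)
    rw [this, Set.ncard_empty]
  · intro k n hn1 hn2
    have h1 : rep A' n ≤ repF (S' k ∪ Ak' k ∪ ∅) n := by
      refine rep_le_repF ?_
      intro x hx hxn
      have h2 := hA'mem (k + 1) x hx (by omega)
      rw [hS'1] at h2
      rw [union_empty]
      exact h2
    have h2 := repF_union_le (O := S' k) (A := Ak' k) (R := ∅) (n := n) (by
      intro x hx y hy
      rw [union_empty] at hx hy
      exact hOO k n hn1 x (hS'S k hx) y (hS'S k hy))
    have h3 : (crossF ∅ (Ak' k) n).card = 0 := by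
      unfold crossF
      simp
    have h4 : (crossF (Ak' k) (S' k) n).card ≤ (crossF (Ak k) (S k) n).card := by
      refine card_le_card ?_
      unfold crossF
      exact filter_subset_filter _ (product_subset_product (hFW k).sub (hS'S k))
    have h5 := (hFW k).cross n
    have h6 := (hFW k).self' n
    omega
  · intro k j hj1 hj2 hgood
    have he := h.tow.e300 k
    have hstep := h.tow.step k
    have hg := (hFW k).good j (by omega) (by
      unfold zR at hj2
      unfold laT
      omega) hgood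
    refine ⟨?_, ?_⟩
    · intro n hn1 hn2
      obtain ⟨x, hx, y, hy, hxy⟩ := hg.1 n hn1 hn2
      have hsub : Ak' k ⊆ S' (k + 1) := by
        rw [hS'1]
        exact subset_union_right
      exact ⟨x, ⟨k + 1, hsub hx⟩, y, ⟨k + 1, hsub hy⟩, hxy⟩
    · intro n hn1 hn2
      have hn3 : (2 : ℕ) ^ (j + 1) ≤ 2 ^ zR a u (k + 1) := Nat.pow_le_pow_right (by norm_num) hj2
      have h1 : rep A n ≤ repF (S k ∪ Ak k ∪ Rk k) n := by
        refine rep_le_repF ?_
        intro x hx hxn
        have h2 := hAlow (k + 1) x hx (by omega)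
        rw [hS1] at h2
        exact h2
      have hn4 : (2 : ℕ) ^ (4 * a k + thT u e k + 128 * e k) ≤ 2 ^ j :=
        Nat.pow_le_pow_right (by norm_num) hj1
      have hn5 : (2 : ℕ) ^ (4 * a k + thT u e k + 13) ≤ 2 ^ j :=
        Nat.pow_le_pow_right (by norm_num) (by omega)
      have hsmall : ∀ x ∈ S k ∪ Rk k, x < 2 ^ (4 * a k + thT u e k + 12) := by
        intro x hx
        rcases mem_union.mp hx with hx | hx
        · refine lt_of_lt_of_le ((hinv k).bd x hx) (Nat.pow_le_pow_right (by norm_num) ?_)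
          unfold thT
          omega
        · exact ((hFR k).rng x hx).2
      have h2 := repF_union_le (O := S k) (A := Ak k) (R := Rk k) (n := n) (by
        intro x hx y hy hxy
        have h3 := hsmall x hx
        have h4 := hsmall y hy
        have h5 : (2 : ℕ) ^ (4 * a k + thT u e k + 13) = 2 ^ (4 * a k + thT u e k + 12) * 2 :=
          pow_succ _ _
        omega)
      have h5 := (hFW k).cross n
      have h6 := hg.2 n hn1 hn2
      have h7 := (hFR k).crossL n (by omega)
      omega
  · intro k J hJ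
    have h1 := (hinv (k + 1)).wn
    refine winLe_mono (A := S (k + 1)) ?_ h1
    intro x hx
    rw [Pool.Agent.Helper48.WR.mem_cut] at hx
    have h2 : (2 : ℕ) ^ J ≤ 2 ^ zR a u (k + 1) := Nat.pow_le_pow_right (by norm_num) hJ
    exact hAlow (k + 1) x hx.2 (by omega)

end Pool.Agent.Helper50.FB
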